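import Mathlib

set_option autoImplicit false

/-!
# A cyclic shuffle-compatible statistic that is not a cyclic descent statistic

The statistic vanishes on all cyclic permutations of length `≠ 5`; on length `5` it is the
indicator of twelve of the twenty-four patterns, chosen such that every cyclic shuffle set of total
length five is split evenly.
-/

namespace Pool.Agent.Results.MP_f664e7_co.NotDescent

/-- A permutation in the sense of the problem: a word of distinct positive integers. -/
def IsWord (l : List ℕ) : Prop := l.Nodup ∧ ∀ a ∈ l, 0 < a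

/-- The standardization of a word: the smallest letter is replaced by `1`, the next by `2`, … -/
def std (l : List ℕ) : List ℕ := l.map fun a => l.countP (· ≤ a)

/-- The cyclic shuffles of `[π]` and `[σ]`. -/
def cyclicShuffles (π σ : List ℕ) : Set (Cycle ℕ) :=
  {c | ∃ t : List ℕ, (t : Cycle ℕ) = c ∧ IsWord t ∧ t.length = π.length + σ.length ∧
    (∃ p, p ~r π ∧ p.Sublist t) ∧ (∃ s, s ~r σ ∧ s.Sublist t)}

/-- `cst` is a cyclic permutation statistic: it depends only on the relative order. -/
def IsStatistic (cst : Cycle ℕ → ℕ) : Prop :=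
  ∀ π σ : List ℕ, IsWord π → IsWord σ → std π = std σ → cst (π : Cycle ℕ) = cst (σ : Cycle ℕ)

/-- `cst` has the same distribution over the sets `A` and `B` of cyclic permutations. -/
def SameDistribution (cst : Cycle ℕ → ℕ) (A B : Set (Cycle ℕ)) : Prop :=
  ∃ e : A ≃ B, ∀ x : A, cst (e x) = cst x

/-- Cyclic shuffle-compatibility. -/
def ShuffleCompatible (cst : Cycle ℕ → ℕ) : Prop :=
  ∀ π σ π' σ' : List ℕ, IsWord π → IsWord σ → IsWord π' → IsWord σ' →
    π.Disjoint σ → π'.Disjoint σ' →
    cst (π : Cycle ℕ) = cst (π' : Cycle ℕ) → cst (σ : Cycle ℕ) = cst (σ' : Cycle ℕ) →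
    π.length = π'.length → σ.length = σ'.length →
    SameDistribution cst (cyclicShuffles π σ) (cyclicShuffles π' σ')

/-- The set of cyclic descents of a word, positions counted from `0` modulo the length. -/
def cDes (l : List ℕ) : Finset ℕ :=
  (Finset.range l.length).filter fun i => l.getD ((i + 1) % l.length) 0 < l.getD i 0

/-- The multiset of the cyclic descent sets of all rotations of a word. -/
def cDesMultiset (l : List ℕ) : Multiset (Finset ℕ) :=
  (l.cyclicPermutations.map cDes : List (Finset ℕ))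

/-- `cst` is a cyclic descent statistic. -/
def IsCyclicDescentStatistic (cst : Cycle ℕ → ℕ) : Prop :=
  ∀ π σ : List ℕ, IsWord π → IsWord σ → π.length = σ.length →
    cDesMultiset π = cDesMultiset σ → cst (π : Cycle ℕ) = cst (σ : Cycle ℕ)

/-! ### The statistic -/

/-- the twelve patterns -/
def Ones : List (List ℕ) :=
  [[1,2,3,4,5],[1,2,3,5,4],[1,2,4,5,3],[1,2,5,4,3],[1,3,4,2,5],[1,3,5,2,4],[1,4,3,2,5],[1,4,3,5,2],
   [1,4,5,2,3],[1,5,3,2,4],[1,5,3,4,2],[1,5,4,2,3]]

/-- indicator on words -/
def one (l : List ℕ) : Bool := decide (l.length = 5) && Ones.any fun o => decide (o ~r std l)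

theorem std_rotated {l l' : List ℕ} (h : l ~r l') : std l ~r std l' := by
  unfold std
  have hp := h.perm
  have : (fun a => l.countP (· ≤ a)) = fun a => l'.countP (· ≤ a) := by
    funext a
    exact hp.countP_eq _
  rw [this]
  exact h.map _

theorem one_rotated {l l' : List ℕ} (h : l ~r l') : one l = one l' := by
  unfold one
  rw [h.perm.length_eq]
  congr 1
  rw [Bool.eq_iff_iff, List.any_eq_true, List.any_eq_true]
  constructor
  · rintro ⟨o, ho, h1⟩
    rw [decide_eq_true_iff] at h1
    exact ⟨o, ho, by rw [decide_eq_true_iff]; exact h1.trans (std_rotated h)⟩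
  · rintro ⟨o, ho, h1⟩
    rw [decide_eq_true_iff] at h1
    exact ⟨o, ho, by rw [decide_eq_true_iff]; exact h1.trans (std_rotated h).symm⟩

/-- the statistic -/
def cst (c : Cycle ℕ) : ℕ := Quotient.lift (fun l : List ℕ => (one l).toNat)
  (fun l l' h => by
    have h' : l ~r l' := h
    simp only [one_rotated h']) c

theorem cst_coe (l : List ℕ) : cst (l : Cycle ℕ) = (one l).toNat := rfl

theorem length_std (l : List ℕ) : (std l).length = l.length := by simp [std]

theorem one_of_std {l l' : List ℕ} (h : std l = std l') : one l = one l' := by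
  unfold one
  rw [h, ← length_std l, h, length_std]

/-! ### Filters and sublists -/

theorem filter_of_sublist {p t : List ℕ} (h : p.Sublist t) (ht : t.Nodup) :
    t.filter (fun a => decide (a ∈ p)) = p := by
  induction h with
  | slnil => rfl
  | cons a h ih =>
    rename_i l₁ l₂
    rw [List.nodup_cons] at ht
    rw [List.filter_cons_of_neg, ih ht.2]
    simp only [decide_eq_true_eq]
    exact fun hmem => ht.1 (h.subset hmem)
  | cons_cons a h ih =>
    rename_i l₁ l₂
    rw [List.nodup_cons] at ht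
    rw [List.filter_cons_of_pos (by simp)]
    congr 1
    rw [← ih ht.2]
    refine List.filter_congr fun b hb => ?_
    rw [ih ht.2]
    have : b ≠ a := fun h => ht.1 (h ▸ hb)
    simp [this]

theorem filter_rotated (P : ℕ → Bool) {l l' : List ℕ} (h : l ~r l') :
    l.filter P ~r l'.filter P := by
  obtain ⟨n, hn⟩ := h
  rw [List.rotate_eq_drop_append_take_mod] at hn
  rw [← hn, List.filter_append]
  conv_lhs => rw [← List.take_append_drop (n % l.length) l]
  rw [List.filter_append]
  exact List.isRotated_append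

theorem mem_shuffles {π σ : List ℕ} (hπ : IsWord π) (hσ : IsWord σ) (hd : π.Disjoint σ)
    (c : Cycle ℕ) : c ∈ cyclicShuffles π σ ↔ ∃ t : List ℕ, (t : Cycle ℕ) = c ∧
      t.Perm (π ++ σ) ∧ t.filter (fun a => decide (a ∈ π)) ~r π ∧
      t.filter (fun a => decide (a ∈ σ)) ~r σ := by
  constructor
  · rintro ⟨t, rfl, ht, hlen, ⟨p, hp, hpt⟩, ⟨s, hs, hst⟩⟩
    refine ⟨t, rfl, ?_, ?_, ?_⟩
    · have hnd : (π ++ σ).Nodup := List.Nodup.append hπ.1 hσ.1 hd
      have hsub : π ++ σ ⊆ t := by
        intro a ha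
        rw [List.mem_append] at ha
        rcases ha with h | h
        · exact hpt.subset (hp.mem_iff.2 h)
        · exact hst.subset (hs.mem_iff.2 h)
      exact ((List.subperm_of_subset hnd hsub).perm_of_length_le (by
        rw [List.length_append]; omega)).symm
    · have h1 := filter_of_sublist hpt ht.1
      have h2 : (fun a => decide (a ∈ π)) = fun a => decide (a ∈ p) := by
        funext a
        simp only [hp.mem_iff]
      rw [h2, h1]
      exact hp
    · have h1 := filter_of_sublist hst ht.1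
      have h2 : (fun a => decide (a ∈ σ)) = fun a => decide (a ∈ s) := by
        funext a
        simp only [hs.mem_iff]
      rw [h2, h1]
      exact hs
  · rintro ⟨t, rfl, ht, h1, h2⟩
    have hnd : (π ++ σ).Nodup := List.Nodup.append hπ.1 hσ.1 hd
    refine ⟨t, rfl, ⟨ht.nodup_iff.2 hnd, ?_⟩, ?_, ⟨_, h1, List.filter_sublist⟩,
      ⟨_, h2, List.filter_sublist⟩⟩
    · intro a ha
      have := ht.mem_iff.1 ha
      rw [List.mem_append] at this
      rcases this with h | h
      · exact hπ.2 a h
      · exact hσ.2 a h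
    · rw [ht.length_eq, List.length_append]

/-! ### Relabelling -/

theorem map_back {φ : ℕ → ℕ} {S : Set ℕ} (hinj : Set.InjOn φ S) {l : List ℕ}
    (hl : ∀ a ∈ l, a ∈ S) : (l.map φ).map (Function.invFunOn φ S) = l := by
  rw [List.map_map]
  conv_rhs => rw [← List.map_id l]
  refine List.map_congr_left fun a ha => ?_
  exact hinj.leftInvOn_invFunOn (hl a ha)

theorem rotated_back {φ : ℕ → ℕ} {S : Set ℕ} (hinj : Set.InjOn φ S) {l l' : List ℕ}
    (hl : ∀ a ∈ l, a ∈ S) (hl' : ∀ a ∈ l', a ∈ S) (h : l.map φ ~r l'.map φ) : l ~r l' := by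
  have h1 := h.map (Function.invFunOn φ S)
  rwa [map_back hinj hl, map_back hinj hl'] at h1

theorem filter_map_mem {φ : ℕ → ℕ} {S : Set ℕ} (hinj : Set.InjOn φ S) {t π : List ℕ}
    (ht : ∀ a ∈ t, a ∈ S) (hπ : ∀ a ∈ π, a ∈ S) :
    (t.map φ).filter (fun a => decide (a ∈ π.map φ)) =
      (t.filter (fun a => decide (a ∈ π))).map φ := by
  rw [List.filter_map]
  congr 1
  refine List.filter_congr fun b hb => ?_
  simp only [Function.comp, List.mem_map]
  congr 1
  apply propext
  constructor
  · rintro ⟨a, ha, hab⟩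
    rw [← hinj (hπ a ha) (ht b hb) hab]
    exact ha
  · intro h
    exact ⟨b, h, rfl⟩

theorem relabel {π σ : List ℕ} (hπ : IsWord π) (hσ : IsWord σ) (hd : π.Disjoint σ)
    (φ : ℕ → ℕ) (hinj : Set.InjOn φ {a | a ∈ π ++ σ}) (hpos : ∀ a ∈ π ++ σ, 0 < φ a) :
    IsWord (π.map φ) ∧ IsWord (σ.map φ) ∧ (π.map φ).Disjoint (σ.map φ) ∧
    ∃ e : cyclicShuffles π σ ≃ cyclicShuffles (π.map φ) (σ.map φ),
      ∀ x, ∃ t : List ℕ, (t : Cycle ℕ) = x.1 ∧ t.Perm (π ++ σ) ∧
        ((t.map φ : List ℕ) : Cycle ℕ) = (e x).1 := by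
  have hSπ : ∀ a ∈ π, a ∈ {a | a ∈ π ++ σ} := fun a ha => List.mem_append.2 (Or.inl ha)
  have hSσ : ∀ a ∈ σ, a ∈ {a | a ∈ π ++ σ} := fun a ha => List.mem_append.2 (Or.inr ha)
  have w1 : IsWord (π.map φ) := by
    refine ⟨List.Nodup.map_on (fun a ha b hb h => hinj (hSπ a ha) (hSπ b hb) h) hπ.1, ?_⟩
    intro b hb
    obtain ⟨a, ha, rfl⟩ := List.mem_map.1 hb
    exact hpos a (hSπ a ha)
  have w2 : IsWord (σ.map φ) := by
    refine ⟨List.Nodup.map_on (fun a ha b hb h => hinj (hSσ a ha) (hSσ b hb) h) hσ.1, ?_⟩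
    intro b hb
    obtain ⟨a, ha, rfl⟩ := List.mem_map.1 hb
    exact hpos a (hSσ a ha)
  have w3 : (π.map φ).Disjoint (σ.map φ) := by
    intro b hb hb'
    obtain ⟨a, ha, rfl⟩ := List.mem_map.1 hb
    obtain ⟨a', ha', h⟩ := List.mem_map.1 hb'
    have := hinj (hSσ a' ha') (hSπ a ha) h
    subst this
    exact hd ha ha'
  refine ⟨w1, w2, w3, ?_⟩
  have hmem : ∀ t : List ℕ, t.Perm (π ++ σ) → ∀ a ∈ t, a ∈ {a | a ∈ π ++ σ} :=
    fun t ht a ha => ht.mem_iff.1 ha
  have hfwd : ∀ x : cyclicShuffles π σ,
      x.1.map φ ∈ cyclicShuffles (π.map φ) (σ.map φ) := by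
    rintro ⟨c, hc⟩
    obtain ⟨t, rfl, ht, h1, h2⟩ := (mem_shuffles hπ hσ hd c).1 hc
    rw [mem_shuffles w1 w2 w3]
    refine ⟨t.map φ, Cycle.map_coe φ t, ?_, ?_, ?_⟩
    · rw [← List.map_append]; exact ht.map φ
    · rw [filter_map_mem hinj (hmem t ht) hSπ]; exact h1.map φ
    · rw [filter_map_mem hinj (hmem t ht) hSσ]; exact h2.map φ
  have hbij : Function.Bijective fun x : cyclicShuffles π σ =>
      (⟨x.1.map φ, hfwd x⟩ : cyclicShuffles (π.map φ) (σ.map φ)) := by
    constructor
    · rintro ⟨c, hc⟩ ⟨c', hc'⟩ h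
      obtain ⟨t, rfl, ht, _, _⟩ := (mem_shuffles hπ hσ hd c).1 hc
      obtain ⟨t', rfl, ht', _, _⟩ := (mem_shuffles hπ hσ hd c').1 hc'
      have h1 : Cycle.map φ (t : Cycle ℕ) = Cycle.map φ (t' : Cycle ℕ) := congrArg Subtype.val h
      rw [Cycle.map_coe, Cycle.map_coe, Cycle.coe_eq_coe] at h1
      refine Subtype.ext ?_
      change (t : Cycle ℕ) = t'
      rw [Cycle.coe_eq_coe]
      exact rotated_back hinj (hmem t ht) (hmem t' ht') h1
    · rintro ⟨c, hc⟩
      obtain ⟨t, rfl, ht, h1, h2⟩ := (mem_shuffles w1 w2 w3 c).1 hc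
      rw [← List.map_append] at ht
      have hex : ∃ u : List ℕ, u.map φ = t ∧ ∀ a ∈ u, a ∈ {a | a ∈ π ++ σ} := by
        refine ⟨t.map (Function.invFunOn φ {a | a ∈ π ++ σ}), ?_, ?_⟩
        · rw [List.map_map]
          conv_rhs => rw [← List.map_id t]
          refine List.map_congr_left fun b hb => ?_
          have hb' := ht.mem_iff.1 hb
          obtain ⟨a, ha, rfl⟩ := List.mem_map.1 hb'
          exact Function.invFunOn_eq ⟨a, ha, rfl⟩
        · intro a ha
          obtain ⟨b, hb, rfl⟩ := List.mem_map.1 ha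
          have hb' := ht.mem_iff.1 hb
          obtain ⟨a, ha', rfl⟩ := List.mem_map.1 hb'
          exact Function.invFunOn_mem (s := {a | a ∈ π ++ σ}) ⟨a, ha', rfl⟩
      obtain ⟨u, hu, huS⟩ := hex
      have hup : u.Perm (π ++ σ) := by
        have h3 : (u.map φ).Perm ((π ++ σ).map φ) := by rw [hu]; exact ht
        have h4 := h3.map (Function.invFunOn φ {a | a ∈ π ++ σ})
        rwa [map_back hinj huS, map_back hinj (fun a ha => ha)] at h4
      refine ⟨⟨(u : Cycle ℕ), ?_⟩, ?_⟩
      · rw [mem_shuffles hπ hσ hd]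
        refine ⟨u, rfl, hup, ?_, ?_⟩
        · rw [← hu, filter_map_mem hinj huS hSπ] at h1
          refine rotated_back hinj ?_ hSπ h1
          intro a ha
          exact huS a (List.mem_filter.1 ha).1
        · rw [← hu, filter_map_mem hinj huS hSσ] at h2
          refine rotated_back hinj ?_ hSσ h2
          intro a ha
          exact huS a (List.mem_filter.1 ha).1
      · refine Subtype.ext ?_
        change Cycle.map φ (u : Cycle ℕ) = _
        rw [Cycle.map_coe, hu]
  refine ⟨Equiv.ofBijective _ hbij, ?_⟩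
  rintro ⟨c, hc⟩
  obtain ⟨t, rfl, ht, _, _⟩ := (mem_shuffles hπ hσ hd c).1 hc
  exact ⟨t, rfl, ht, (Cycle.map_coe φ t).symm⟩

/-! ### Total length different from five -/

theorem cst_eq_zero {t : List ℕ} (h : t.length ≠ 5) : cst (t : Cycle ℕ) = 0 := by
  rw [cst_coe, one]
  simp [h]

theorem length_eq_of_mem {π σ : List ℕ} {c : Cycle ℕ} (h : c ∈ cyclicShuffles π σ)
    (hlen : π.length + σ.length ≠ 5) : cst c = 0 := by
  obtain ⟨t, rfl, _, ht, _⟩ := h
  exact cst_eq_zero (by omega)

/-- the normal form obtained by numbering the letters in order of appearance -/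
theorem normal_form {π σ : List ℕ} (hπ : IsWord π) (hσ : IsWord σ) (hd : π.Disjoint σ) :
    Nonempty (cyclicShuffles π σ ≃ cyclicShuffles ((List.range π.length).map Nat.succ)
      ((List.range σ.length).map fun i => π.length + i + 1)) := by
  have hnd : (π ++ σ).Nodup := List.Nodup.append hπ.1 hσ.1 hd
  let φ : ℕ → ℕ := fun a => (π ++ σ).idxOf a + 1
  have hinj : Set.InjOn φ {a | a ∈ π ++ σ} := by
    intro a ha b hb h
    have h1 : (π ++ σ).idxOf a = (π ++ σ).idxOf b := by simpa [φ] using h
    exact (List.idxOf_inj ha).1 h1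
  obtain ⟨_, _, _, e, _⟩ := relabel hπ hσ hd φ hinj (fun a _ => Nat.succ_pos _)
  have e1 : π.map φ = (List.range π.length).map Nat.succ := by
    refine List.ext_getElem (by simp) fun i h1 h2 => ?_
    rw [List.length_map] at h1
    simp only [List.getElem_map, List.getElem_range, φ, Nat.succ_eq_add_one]
    congr 1
    rw [List.idxOf_append_of_mem (List.getElem_mem _)]
    exact hπ.1.idxOf_getElem i h1
  have e2 : σ.map φ = (List.range σ.length).map fun i => π.length + i + 1 := by
    refine List.ext_getElem (by simp) fun i h1 h2 => ?_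
    rw [List.length_map] at h1
    simp only [List.getElem_map, List.getElem_range, φ]
    congr 1
    rw [List.idxOf_append_of_notMem (fun h => hd h (List.getElem_mem _))]
    rw [hσ.1.idxOf_getElem i h1]
  rw [e1, e2] at e
  exact ⟨e⟩

theorem compat_other {π σ π' σ' : List ℕ} (hπ : IsWord π) (hσ : IsWord σ) (hπ' : IsWord π')
    (hσ' : IsWord σ') (hd : π.Disjoint σ) (hd' : π'.Disjoint σ') (h1 : π.length = π'.length)
    (h2 : σ.length = σ'.length) (hlen : π.length + σ.length ≠ 5) :
    SameDistribution cst (cyclicShuffles π σ) (cyclicShuffles π' σ') := by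
  obtain ⟨e⟩ := normal_form hπ hσ hd
  obtain ⟨e'⟩ := normal_form hπ' hσ' hd'
  rw [← h1, ← h2] at e'
  refine ⟨e.trans e'.symm, fun x => ?_⟩
  rw [length_eq_of_mem (Subtype.coe_prop _) (by omega : π'.length + σ'.length ≠ 5),
    length_eq_of_mem x.2 hlen]

/-! ### One of the words is empty -/

theorem shuffles_nil_right {π : List ℕ} (hπ : IsWord π) :
    cyclicShuffles π [] = {(π : Cycle ℕ)} := by
  have hnil : IsWord [] := ⟨List.nodup_nil, by simp⟩
  ext c
  rw [mem_shuffles hπ hnil (by simp), Set.mem_singleton_iff]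
  constructor
  · rintro ⟨t, rfl, ht, h1, _⟩
    rw [List.append_nil] at ht
    rw [List.filter_eq_self.2 (fun a ha => by simpa using ht.mem_iff.1 ha)] at h1
    exact Cycle.coe_eq_coe.2 h1
  · rintro rfl
    refine ⟨π, rfl, by simp, ?_, by simp⟩
    rw [List.filter_eq_self.2 (fun a ha => by simpa using ha)]

theorem shuffles_nil_left {σ : List ℕ} (hσ : IsWord σ) :
    cyclicShuffles [] σ = {(σ : Cycle ℕ)} := by
  have hnil : IsWord [] := ⟨List.nodup_nil, by simp⟩
  ext c
  rw [mem_shuffles hnil hσ (by simp), Set.mem_singleton_iff]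
  constructor
  · rintro ⟨t, rfl, ht, _, h1⟩
    rw [List.nil_append] at ht
    rw [List.filter_eq_self.2 (fun a ha => by simpa using ht.mem_iff.1 ha)] at h1
    exact Cycle.coe_eq_coe.2 h1
  · rintro rfl
    refine ⟨σ, rfl, by simp, by simp, ?_⟩
    rw [List.filter_eq_self.2 (fun a ha => by simpa using ha)]

theorem same_singleton {a b : Cycle ℕ} (h : cst a = cst b) :
    SameDistribution cst {a} {b} := by
  refine ⟨Equiv.ofUnique _ _, ?_⟩
  rintro ⟨x, hx⟩
  rw [Set.mem_singleton_iff] at hx
  subst hx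
  exact h.symm

/-! ### Total length five -/

theorem one_map {L t : List ℕ} (ht : t.Perm L) :
    one (t.map fun a => L.countP (· ≤ a)) = one t := by
  apply one_of_std
  unfold std
  rw [List.map_map]
  refine List.map_congr_left fun a ha => ?_
  simp only [Function.comp]
  rw [List.countP_map]
  refine List.countP_congr fun b hb => ?_
  simp only [Function.comp, decide_eq_true_eq]
  have ha' := ht.mem_iff.1 ha
  have hb' := ht.mem_iff.1 hb
  constructor
  · intro h
    by_contra hc
    rw [not_le] at hc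
    have : L.countP (· ≤ a) < L.countP (· ≤ b) := by
      have h1 : L.countP (· ≤ a) ≤ (L.filter (· ≤ b)).countP (· ≤ a) := by
        rw [List.countP_filter]
        refine List.countP_mono_left fun x _ hx => ?_
        simp only [decide_eq_true_eq, Bool.and_eq_true] at hx ⊢
        exact ⟨hx, hx.trans hc.le⟩
      have h2 : (L.filter (· ≤ b)).countP (· ≤ a) < (L.filter (· ≤ b)).length := by
        refine lt_of_le_of_ne List.countP_le_length fun he => ?_
        have := (List.countP_eq_length.1 he) b (List.mem_filter.2 ⟨hb', by simp⟩)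
        simp only [decide_eq_true_eq] at this
        omega
      rw [← List.countP_eq_length_filter] at h2
      exact h1.trans_lt h2
    omega
  · intro h
    refine List.countP_mono_left fun x _ hx => ?_
    simp only [decide_eq_true_eq] at hx ⊢
    omega

theorem countP_lt {L : List ℕ} {a b : ℕ} (hb : b ∈ L) (h : a < b) :
    L.countP (· ≤ a) < L.countP (· ≤ b) := by
  have h1 : L.countP (· ≤ a) ≤ (L.filter (· ≤ b)).countP (· ≤ a) := by
    rw [List.countP_filter]
    refine List.countP_mono_left fun x _ hx => ?_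
    simp only [decide_eq_true_eq, Bool.and_eq_true] at hx ⊢
    exact ⟨hx, hx.trans h.le⟩
  have h2 : (L.filter (· ≤ b)).countP (· ≤ a) < (L.filter (· ≤ b)).length := by
    refine lt_of_le_of_ne List.countP_le_length fun he => ?_
    have := (List.countP_eq_length.1 he) b (List.mem_filter.2 ⟨hb, by simp⟩)
    simp only [decide_eq_true_eq] at this
    omega
  rw [← List.countP_eq_length_filter] at h2
  exact h1.trans_lt h2

/-- representatives of the cyclic permutations of `1, …, 5` -/
def R24 : List (List ℕ) := (List.permutations' [2,3,4,5]).map fun l => 1 :: l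

/-- the test for being a shuffle -/
def good (π σ t : List ℕ) : Bool :=
  decide (t.filter (fun a => decide (a ∈ π)) ~r π) &&
    decide (t.filter (fun a => decide (a ∈ σ)) ~r σ)

theorem one_R24 : ∀ t ∈ R24, one t = decide (t ∈ Ones) := by decide +kernel

theorem R24_inj : ∀ t ∈ R24, ∀ t' ∈ R24, t ~r t' → t = t' := by decide +kernel

theorem R24_nodup : R24.Nodup := by decide +kernel

/-- the counts -/
def Chk (m k : ℕ) : Prop := ∀ u ∈ List.permutations' [1,2,3,4,5],
  ((R24.filter (good (u.take m) (u.drop m))).filter (fun t => decide (t ∈ Ones))).length = k ∧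
  ((R24.filter (good (u.take m) (u.drop m))).filter (fun t => !decide (t ∈ Ones))).length = k

instance (m k : ℕ) : Decidable (Chk m k) := by unfold Chk; infer_instance

theorem chk1 : Chk 1 2 := by decide +kernel
theorem chk2 : Chk 2 6 := by decide +kernel
theorem chk3 : Chk 3 6 := by decide +kernel
theorem chk4 : Chk 4 2 := by decide +kernel

/-- the common number of shuffles of each value -/
def Kc (m : ℕ) : ℕ := if m = 2 ∨ m = 3 then 6 else 2

theorem chk {m : ℕ} (h1 : 1 ≤ m) (h2 : m ≤ 4) : Chk m (Kc m) := by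
  have : m = 1 ∨ m = 2 ∨ m = 3 ∨ m = 4 := by omega
  rcases this with rfl | rfl | rfl | rfl
  · exact chk1
  · exact chk2
  · exact chk3
  · exact chk4

theorem good_iff {π σ t : List ℕ} : good π σ t = true ↔
    t.filter (fun a => decide (a ∈ π)) ~r π ∧ t.filter (fun a => decide (a ∈ σ)) ~r σ := by
  simp [good]

/-- every arrangement of `1, …, 5` can be rotated to start with `1` -/
theorem exists_rep {t : List ℕ} (ht : t.Perm [1,2,3,4,5]) : ∃ t' ∈ R24, t' ~r t := by
  have h1 : 1 ∈ t := ht.mem_iff.2 (by simp)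
  obtain ⟨a, b, rfl⟩ := List.append_of_mem h1
  refine ⟨1 :: (b ++ a), ?_, ?_⟩
  · rw [R24, List.mem_map]
    refine ⟨b ++ a, ?_, rfl⟩
    rw [List.mem_permutations']
    have h2 : (1 :: (b ++ a)).Perm (1 :: [2,3,4,5]) := by
      refine List.Perm.trans ?_ ht
      rw [← List.cons_append]
      exact List.perm_append_comm
    exact h2.cons_inv
  · rw [← List.cons_append]
    exact List.isRotated_append

theorem perm_of_R24 {t : List ℕ} (ht : t ∈ R24) : t.Perm [1,2,3,4,5] := by
  rw [R24, List.mem_map] at ht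
  obtain ⟨l, hl, rfl⟩ := ht
  rw [List.mem_permutations'] at hl
  exact hl.cons 1

/-- the fibre of the statistic over the shuffles -/
theorem fibre_equiv {π σ : List ℕ} (hπ : IsWord π) (hσ : IsWord σ) (hd : π.Disjoint σ)
    (hL : (π ++ σ).Perm [1,2,3,4,5]) (b : Bool) :
    Nonempty ({x : cyclicShuffles π σ // cst x = b.toNat} ≃
      {t // t ∈ (R24.filter (good π σ)).filter (fun t => one t == b)}) := by
  have hmem : ∀ t ∈ (R24.filter (good π σ)).filter (fun t => one t == b),
      t ∈ R24 ∧ good π σ t = true ∧ one t = b := by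
    intro t ht
    rw [List.mem_filter, List.mem_filter] at ht
    exact ⟨ht.1.1, ht.1.2, by simpa using ht.2⟩
  have hsh : ∀ t ∈ R24, good π σ t = true → (t : Cycle ℕ) ∈ cyclicShuffles π σ := by
    intro t ht hg
    rw [mem_shuffles hπ hσ hd]
    rw [good_iff] at hg
    exact ⟨t, rfl, (perm_of_R24 ht).trans hL.symm, hg.1, hg.2⟩
  refine ⟨(Equiv.ofBijective (fun t : {t // t ∈ (R24.filter (good π σ)).filter
      (fun t => one t == b)} => (⟨⟨(t.1 : Cycle ℕ), hsh t.1 (hmem t.1 t.2).1 (hmem t.1 t.2).2.1⟩,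
        by
          change cst (t.1 : Cycle ℕ) = b.toNat
          rw [cst_coe, (hmem t.1 t.2).2.2]⟩ :
        {x : cyclicShuffles π σ // cst x = b.toNat})) ⟨?_, ?_⟩).symm⟩
  · rintro ⟨t, ht⟩ ⟨t', ht'⟩ h
    have h1 : (t : Cycle ℕ) = t' := congrArg (fun x => x.1.1) h
    exact Subtype.ext (R24_inj t (hmem t ht).1 t' (hmem t' ht').1 (Cycle.coe_eq_coe.1 h1))
  · rintro ⟨⟨c, hc⟩, hv⟩
    obtain ⟨t, rfl, ht, h1, h2⟩ := (mem_shuffles hπ hσ hd c).1 hc
    obtain ⟨t', ht', hr⟩ := exists_rep (ht.trans hL)
    have hv' : cst (t : Cycle ℕ) = b.toNat := hv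
    rw [cst_coe] at hv'
    refine ⟨⟨t', ?_⟩, ?_⟩
    · rw [List.mem_filter, List.mem_filter]
      refine ⟨⟨ht', ?_⟩, ?_⟩
      · rw [good_iff]
        exact ⟨(filter_rotated _ hr).trans h1, (filter_rotated _ hr).trans h2⟩
      · rw [one_rotated hr]
        cases hb : one t <;> cases b <;> simp_all
    · refine Subtype.ext (Subtype.ext ?_)
      exact Cycle.coe_eq_coe.2 hr

theorem card_fibre {π σ : List ℕ} (hπ : IsWord π) (hσ : IsWord σ) (hd : π.Disjoint σ)
    (hL : (π ++ σ).Perm [1,2,3,4,5]) (h1 : 1 ≤ π.length) (h2 : π.length ≤ 4) (b : Bool) :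
    Nonempty ({x : cyclicShuffles π σ // cst x = b.toNat} ≃ Fin (Kc π.length)) := by
  obtain ⟨e⟩ := fibre_equiv hπ hσ hd hL b
  have hc := chk h1 h2 (π ++ σ) (List.mem_permutations'.2 hL)
  rw [List.take_left, List.drop_left] at hc
  have hlen : ((R24.filter (good π σ)).filter (fun t => one t == b)).length = Kc π.length := by
    cases b
    · rw [← hc.2]
      congr 1
      refine List.filter_congr fun t ht => ?_
      rw [one_R24 t (List.mem_filter.1 ht).1]
      simp
    · rw [← hc.1]
      congr 1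
      refine List.filter_congr fun t ht => ?_
      rw [one_R24 t (List.mem_filter.1 ht).1]
      simp
  have hnd : ((R24.filter (good π σ)).filter (fun t => one t == b)).Nodup :=
    (R24_nodup.filter _).filter _
  refine ⟨e.trans ?_⟩
  refine (hnd.getEquiv _).symm.trans (finCongr hlen)

theorem cst_two (c : Cycle ℕ) : cst c = false.toNat ∨ cst c = true.toNat := by
  refine Quotient.inductionOn' c fun l => ?_
  change (one l).toNat = _ ∨ (one l).toNat = _
  cases one l
  · exact Or.inl rfl
  · exact Or.inr rfl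

theorem card_fibre_gen {π σ : List ℕ} (hπ : IsWord π) (hσ : IsWord σ) (hd : π.Disjoint σ)
    (hlen : π.length + σ.length = 5) (h1 : 1 ≤ π.length) (h2 : π.length ≤ 4) (b : Bool) :
    Nonempty ({x : cyclicShuffles π σ // cst x = b.toNat} ≃ Fin (Kc π.length)) := by
  have hnd : (π ++ σ).Nodup := List.Nodup.append hπ.1 hσ.1 hd
  let φ : ℕ → ℕ := fun a => (π ++ σ).countP (· ≤ a)
  have hinj : Set.InjOn φ {a | a ∈ π ++ σ} := by
    intro a ha b hb h
    rcases lt_trichotomy a b with h3 | h3 | h3
    · have := countP_lt (L := π ++ σ) hb h3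
      exact absurd h this.ne
    · exact h3
    · have := countP_lt (L := π ++ σ) ha h3
      exact absurd h this.ne'
  have hpos : ∀ a ∈ π ++ σ, 0 < φ a := by
    intro a ha
    exact List.countP_pos_iff.2 ⟨a, ha, by simp⟩
  obtain ⟨w1, w2, w3, e, he⟩ := relabel hπ hσ hd φ hinj hpos
  have hL : (π.map φ ++ σ.map φ).Perm [1,2,3,4,5] := by
    rw [← List.map_append]
    have hlen5 : ((π ++ σ).map φ).length = 5 := by
      rw [List.length_map, List.length_append, hlen]
    have hnd' : ((π ++ σ).map φ).Nodup :=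
      List.Nodup.map_on (fun a ha b hb h => hinj ha hb h) hnd
    have hsub : (π ++ σ).map φ ⊆ [1,2,3,4,5] := by
      intro b hb
      obtain ⟨a, ha, rfl⟩ := List.mem_map.1 hb
      have p1 := hpos a ha
      have p2 : φ a ≤ 5 := by
        have : φ a ≤ (π ++ σ).length := List.countP_le_length
        rw [List.length_append] at this
        omega
      simp only [List.mem_cons, List.not_mem_nil, or_false]
      omega
    exact (List.subperm_of_subset hnd' hsub).perm_of_length_le (by rw [hlen5]; simp)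
  have hc := card_fibre w1 w2 w3 hL (by rw [List.length_map]; exact h1)
    (by rw [List.length_map]; exact h2) b
  rw [List.length_map] at hc
  obtain ⟨f⟩ := hc
  refine ⟨(e.subtypeEquiv fun x => ?_).trans f⟩
  obtain ⟨t, ht1, ht2, ht3⟩ := he x
  rw [← ht3, ← ht1, cst_coe, cst_coe, one_map ht2]

theorem compat_five {π σ π' σ' : List ℕ} (hπ : IsWord π) (hσ : IsWord σ) (hπ' : IsWord π')
    (hσ' : IsWord σ') (hd : π.Disjoint σ) (hd' : π'.Disjoint σ') (h1 : π.length = π'.length)
    (h2 : σ.length = σ'.length) (hlen : π.length + σ.length = 5) (h3 : 1 ≤ π.length)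
    (h4 : π.length ≤ 4) :
    SameDistribution cst (cyclicShuffles π σ) (cyclicShuffles π' σ') := by
  have key : ∀ v : ℕ, Nonempty ({x : cyclicShuffles π σ // cst x = v} ≃
      {x : cyclicShuffles π' σ' // cst x = v}) := by
    intro v
    by_cases hv : ∃ b : Bool, v = b.toNat
    · obtain ⟨b, rfl⟩ := hv
      obtain ⟨e⟩ := card_fibre_gen hπ hσ hd hlen h3 h4 b
      obtain ⟨e'⟩ := card_fibre_gen hπ' hσ' hd' (by omega) (by omega) (by omega) b
      rw [← h1] at e'
      exact ⟨e.trans e'.symm⟩
    · have hno : ∀ c : Cycle ℕ, cst c ≠ v := by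
        intro c hc
        rcases cst_two c with h | h
        · exact hv ⟨false, by rw [← hc, h]⟩
        · exact hv ⟨true, by rw [← hc, h]⟩
      have : IsEmpty {x : cyclicShuffles π σ // cst x = v} := ⟨fun x => hno _ x.2⟩
      have : IsEmpty {x : cyclicShuffles π' σ' // cst x = v} := ⟨fun x => hno _ x.2⟩
      exact ⟨Equiv.equivOfIsEmpty _ _⟩
  let E : ∀ v : ℕ, {x : cyclicShuffles π σ // cst x = v} ≃
      {x : cyclicShuffles π' σ' // cst x = v} := fun v => Classical.choice (key v)
  exact ⟨Equiv.ofFiberEquiv E, fun x => Equiv.ofFiberEquiv_map E x⟩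

/-- **Theorem.** There is a cyclic shuffle-compatible cyclic permutation statistic which is not a
cyclic descent statistic. -/
theorem result : ∃ cst : Cycle ℕ → ℕ, IsStatistic cst ∧ ShuffleCompatible cst ∧
    ¬ IsCyclicDescentStatistic cst := by
  refine ⟨cst, ?_, ?_, ?_⟩
  · intro π σ _ _ h
    rw [cst_coe, cst_coe, one_of_std h]
  · intro π σ π' σ' hπ hσ hπ' hσ' hd hd' hc hc' h1 h2
    by_cases hlen : π.length + σ.length = 5
    · rcases Nat.eq_zero_or_pos π.length with h3 | h3
      · have e1 : π = [] := List.length_eq_zero_iff.1 h3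
        have e2 : π' = [] := List.length_eq_zero_iff.1 (by omega)
        subst e1 e2
        rw [shuffles_nil_left hσ, shuffles_nil_left hσ']
        exact same_singleton hc'
      · rcases Nat.eq_zero_or_pos σ.length with h4 | h4
        · have e1 : σ = [] := List.length_eq_zero_iff.1 h4
          have e2 : σ' = [] := List.length_eq_zero_iff.1 (by omega)
          subst e1 e2
          rw [shuffles_nil_right hπ, shuffles_nil_right hπ']
          exact same_singleton hc
        · exact compat_five hπ hσ hπ' hσ' hd hd' h1 h2 hlen h3 (by omega)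
    · exact compat_other hπ hσ hπ' hσ' hd hd' h1 h2 hlen
  · intro h
    have h1 := h [1,2,3,5,4] [1,3,4,5,2] (by unfold IsWord; decide) (by unfold IsWord; decide) rfl
      (by decide +kernel)
    rw [cst_coe, cst_coe] at h1
    revert h1
    decide +kernel

end Pool.Agent.Results.MP_f664e7_co.NotDescent
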